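import Pool.Agent.H29.ENR.Stmts5

/-!
# Board enr, row Q3G: the figure-eight relation
-/

set_option autoImplicit false
set_option linter.unusedVariables false
set_option linter.unusedSectionVars false

namespace Pool.ENR

open Pool.Agent.H81.ENG Pool.Agent.H55.NEU Matrix

namespace Q3G

section

variable {F : Type} [Field F]

/-- The matrix of the automorphism. -/
def MM (g : F) : Matrix (Fin 2) (Fin 2) F := !![0, -g; 1, g]

theorem det_MM (g : F) : (MM g).det = g := by
  rw [MM, Matrix.det_fin_two_of]; ring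

theorem unit_MM {g : F} (hg : g ≠ 0) : IsUnit (MM g) :=
  (Matrix.isUnit_iff_isUnit_det _).2 (by rw [det_MM]; exact isUnit_iff_ne_zero.2 hg)

theorem udet_MM {g : F} (hg : g ≠ 0) : IsUnit (MM g).det := by
  rw [det_MM]; exact isUnit_iff_ne_zero.2 hg

/-- The lift of the conjugation by the matrix. -/
noncomputable def S (g : F) (hg : g ≠ 0) (Y : SL2 F) : SL2 F :=
  ⟨MM g * (Y : Matrix (Fin 2) (Fin 2) F) * (MM g)⁻¹, by
    rw [det_mul, det_mul, Y.det_coe, mul_one, ← det_mul, mul_nonsing_inv _ (udet_MM hg),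
      det_one]⟩

theorem S_mul (g : F) (hg : g ≠ 0) (Y : SL2 F) :
    (S g hg Y : Matrix (Fin 2) (Fin 2) F) * MM g = MM g * (Y : Matrix (Fin 2) (Fin 2) F) := by
  show MM g * (Y : Matrix (Fin 2) (Fin 2) F) * (MM g)⁻¹ * MM g = _
  rw [mul_assoc, nonsing_inv_mul _ (udet_MM hg), mul_one]

theorem S_iter (g : F) (hg : g ≠ 0) (Y : SL2 F) (n : ℕ) :
    (((S g hg)^[n] Y : SL2 F) : Matrix (Fin 2) (Fin 2) F) * (MM g) ^ n =
      (MM g) ^ n * (Y : Matrix (Fin 2) (Fin 2) F) := by
  induction n with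
  | zero => simp
  | succ n ih =>
    rw [Function.iterate_succ_apply', pow_succ', ← mul_assoc, S_mul, mul_assoc, ih, ← mul_assoc]

theorem sig_iter {g : F} (hg : g ≠ 0) {σ : MulAut (PS F)} (hσ : CM F (MM g) σ) (Y : SL2 F)
    (n : ℕ) : (σ ^ n) (pr Y) = pr ((S g hg)^[n] Y) := by
  induction n with
  | zero => rfl
  | succ n ih =>
    rw [pow_succ', MulAut.mul_apply, ih, Function.iterate_succ_apply']
    exact hσ _ _ (S_mul g hg _)

theorem mat_ext {a b c d a' b' c' d' : F} (h1 : a = a') (h2 : b = b') (h3 : c = c')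
    (h4 : d = d') : (!![a, b; c, d] : Matrix (Fin 2) (Fin 2) F) = !![a', b'; c', d'] := by
  rw [h1, h2, h3, h4]

theorem MM_sq (g : F) : MM g * MM g = g • MM g + (-g) • (1 : Matrix (Fin 2) (Fin 2) F) := by
  rw [MM, Matrix.mul_fin_two, Matrix.one_fin_two, Matrix.smul_of, Matrix.smul_of, Matrix.of_add_of]
  ext i j
  fin_cases i <;> fin_cases j <;> simp <;> ring

theorem pow_lin (g : F) (n : ℕ) :
    ∃ α β : F, (MM g) ^ n = α • MM g + β • (1 : Matrix (Fin 2) (Fin 2) F) := by
  induction n with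
  | zero => exact ⟨0, 1, by simp⟩
  | succ n ih =>
    obtain ⟨α, β, h⟩ := ih
    refine ⟨α * g + β, -(α * g), ?_⟩
    rw [pow_succ, h, add_mul, smul_mul_assoc, MM_sq, smul_mul_assoc, one_mul]
    module

/-- The relation between the matrices. -/
theorem rel (g t z w : F) (hc : w ^ 2 - (g * w * z - g * z ^ 2 + t * w - g * z - 1) = 0)
    (ht : t ^ 2 - (g - 1) * (t - 1) = 0) :
    (!![w, -(g * (1 + z - w)); -z, t - w] : Matrix (Fin 2) (Fin 2) F) * MM g *
      !![t - w, g * (1 + z - w); z, w] * !![t - w, g * (1 + z - w); z, w] * MM g =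
    MM g * !![w, -(g * (1 + z - w)); -z, t - w] * MM g * !![t - w, g * (1 + z - w); z, w] := by
  rw [MM]
  simp only [Matrix.mul_fin_two]
  apply mat_ext
  · linear_combination (-1 * z * g ^ 2 + 1 * w * g ^ 2 - 1 * w * g - 1 * t * g - 1 * g ^ 2
      + 1 * g) * hc + (-1 * w * g + 1 * g) * ht
  · linear_combination (-1 * z * g ^ 3 + 1 * z * g ^ 2 + 1 * w * g ^ 3 - 2 * w * g ^ 2 - 1 * g ^ 3
      + 1 * g ^ 2) * hc + (1 * z * g ^ 2 - 1 * w * g ^ 2 + 1 * g ^ 2) * ht
  · linear_combination (1 * z * g - 1 * w * g + 1 * t * g) * hc + (1 * z * g) * ht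
  · linear_combination (1 * z * g ^ 2 - 1 * w * g ^ 2 + 1 * w * g + 1 * t * g ^ 2 - 2 * t * g
      + 1 * g) * hc + (1 * w * g - 1 * t * g + 1 * g) * ht

/-- A point on the conic. -/
theorem conic [Finite F] (h2 : (2 : F) ≠ 0) (g t : F) (hg : g ≠ 0) (hg4 : g ≠ 4) :
    ∃ z w : F, w ^ 2 - (g * w * z - g * z ^ 2 + t * w - g * z - 1) = 0 := by
  have : Fintype F := Fintype.ofFinite F
  have hc : ringChar F ≠ 2 := by
    intro h0
    apply h2
    have h3 := ringChar.Nat.cast_ringChar (R := F)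
    rw [h0] at h3
    exact_mod_cast h3
  have hodd : Fintype.card F % 2 = 1 := FiniteField.odd_card_of_char_ne_two hc
  obtain ⟨r, hr⟩ : ∃ r : F, 2 * r = 1 := ⟨2⁻¹, mul_inv_cancel₀ h2⟩
  have hlead : g - g ^ 2 * r ^ 2 ≠ 0 := by
    intro h
    have h5 : g * (4 - g) = 0 := by
      linear_combination 4 * h + (-g ^ 2 * (-(2 * r) - 1)) * hr
    rcases mul_eq_zero.1 h5 with h6 | h6
    · exact hg h6
    · exact hg4 (by linear_combination -h6)
  obtain ⟨a, b, hab⟩ := FiniteField.exists_root_sum_quadratic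
    (f := (Polynomial.X ^ 2 : Polynomial F))
    (g := Polynomial.C (g - g ^ 2 * r ^ 2) * Polynomial.X ^ 2 +
      Polynomial.C (g - 2 * g * t * r ^ 2) * Polynomial.X + Polynomial.C (1 - t ^ 2 * r ^ 2))
    (Polynomial.degree_X_pow 2) (Polynomial.degree_quadratic hlead) hodd
  refine ⟨b, a + (g * b + t) * r, ?_⟩
  simp only [Polynomial.eval_add, Polynomial.eval_pow, Polynomial.eval_X, Polynomial.eval_mul,
    Polynomial.eval_C] at hab
  linear_combination hab + (a * (g * b + t) + (g * b + t) ^ 2 * r) * hr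

end

end Q3G

open Q3G

theorem q3g_thm : Q3GStmt := by
  intro F _ _ h2 v e hns hve he σ hσ d hL
  set g : F := v + 2 with hgdef
  have hg : g ≠ 0 := fun h => hns (by rw [h]; exact ⟨0, by ring⟩)
  have hg4 : g ≠ 4 := fun h => hns (by rw [h]; exact ⟨2, by norm_num⟩)
  have hσ' : CM F (MM g) σ := hσ
  set t : F := (g - 1 + e) / 2 with htdef
  have ht : t ^ 2 - (g - 1) * (t - 1) = 0 := by
    have h3 : 2 * t = g - 1 + e := by rw [htdef]; field_simp
    have h4 : (2 * 2 : F) * (t ^ 2 - (g - 1) * (t - 1)) = 0 := by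
      have : (2 * 2 : F) * (t ^ 2 - (g - 1) * (t - 1)) =
          (2 * t) ^ 2 - 2 * (g - 1) * (2 * t) + 4 * (g - 1) := by ring
      rw [this, h3]
      have hv : v = g - 2 := by rw [hgdef]; ring
      rw [hv] at hve
      linear_combination -hve
    exact (mul_eq_zero.1 h4).resolve_left (mul_ne_zero h2 h2)
  obtain ⟨z, w, hc⟩ := conic h2 g t hg hg4
  have hdet : (t - w) * w - g * (1 + z - w) * z = 1 := by linear_combination -hc
  set X : SL2 F := mk2 (t - w) (g * (1 + z - w)) z w hdet with hX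
  have hXm : (X : Matrix (Fin 2) (Fin 2) F) = !![t - w, g * (1 + z - w); z, w] := rfl
  have hXi : ((X⁻¹ : SL2 F) : Matrix (Fin 2) (Fin 2) F) =
      !![w, -(g * (1 + z - w)); -z, t - w] := by
    rw [hX, mk2_inv]
    rfl
  have hU := unit_MM hg
  have hS := S_mul g hg
  set X₁ : SL2 F := X⁻¹ * S g hg X with hX1
  -- the relation
  have hrel : X₁ * S g hg X = S g hg X₁ := by
    apply Subtype.ext
    apply hU.mul_right_cancel
    show ((X₁ : Matrix (Fin 2) (Fin 2) F) * (S g hg X : Matrix (Fin 2) (Fin 2) F)) * MM g =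
      (S g hg X₁ : Matrix (Fin 2) (Fin 2) F) * MM g
    rw [hS X₁, mul_assoc, hS X]
    apply hU.mul_right_cancel
    have h1 : (X₁ : Matrix (Fin 2) (Fin 2) F) =
        ((X⁻¹ : SL2 F) : Matrix (Fin 2) (Fin 2) F) * (S g hg X : Matrix (Fin 2) (Fin 2) F) := rfl
    have h5 := rel g t z w hc ht
    rw [← hXi, ← hXm] at h5
    calc (X₁ : Matrix (Fin 2) (Fin 2) F) * (MM g * (X : Matrix (Fin 2) (Fin 2) F)) * MM g
        = ((X⁻¹ : SL2 F) : Matrix (Fin 2) (Fin 2) F) *
            ((S g hg X : Matrix (Fin 2) (Fin 2) F) * MM g) * (X : Matrix (Fin 2) (Fin 2) F) *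
            MM g := by rw [h1]; noncomm_ring
      _ = ((X⁻¹ : SL2 F) : Matrix (Fin 2) (Fin 2) F) * MM g * (X : Matrix (Fin 2) (Fin 2) F) *
            (X : Matrix (Fin 2) (Fin 2) F) * MM g := by rw [hS X]; noncomm_ring
      _ = MM g * ((X⁻¹ : SL2 F) : Matrix (Fin 2) (Fin 2) F) * MM g *
            (X : Matrix (Fin 2) (Fin 2) F) := h5
      _ = MM g * ((X⁻¹ : SL2 F) : Matrix (Fin 2) (Fin 2) F) *
            ((S g hg X : Matrix (Fin 2) (Fin 2) F) * MM g) := by rw [hS X]; noncomm_ring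
      _ = MM g * (X₁ : Matrix (Fin 2) (Fin 2) F) * MM g := by rw [h1]; noncomm_ring
  -- the dynamics
  have hσX : σ (pr X) = pr (S g hg X) := hσ' _ _ (hS X)
  have hσX1 : σ (pr X₁) = pr (S g hg X₁) := hσ' _ _ (hS X₁)
  have he1 : ef σ (pr X) = pr X₁ := by
    unfold ef
    rw [hσX, ← map_inv, ← map_mul]
  have he2 : ef σ (pr X₁) = pr (S g hg X) := by
    unfold ef
    rw [hσX1, ← map_inv, ← map_mul, ← hrel, inv_mul_cancel_left]
  have hit : (ef σ)^[2] (pr X) = (σ ^ (1 : ℤ)) (pr X) := by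
    rw [Function.iterate_succ_apply, Function.iterate_one, he1, he2, zpow_one, hσX]
  have hmul := ef_iter_mul σ 1 2 (pr X) hit
  -- periodic
  have : Finite (MulAut (PS F)) :=
    Finite.of_injective (fun s : MulAut (PS F) => (s : PS F → PS F)) DFunLike.coe_injective
  have hper : (ef σ)^[d] (pr X) = pr X := by
    refine hL.periodic (j := 2 * orderOf σ) (Nat.mul_pos (by norm_num) (orderOf_pos σ)) ?_
    rw [hmul, one_mul, zpow_natCast, pow_orderOf_eq_one]
    rfl
  -- odd powers move the point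
  have hodd : ∀ n : ℕ, n % 2 = 1 → (σ ^ n) (pr X) ≠ pr X := by
    intro n hn hfix
    rw [sig_iter hg hσ' X n] at hfix
    obtain ⟨r, hr, hr'⟩ := pr_eq_iff.1 hfix
    have hA := S_iter g hg X n
    set Y : SL2 F := (S g hg)^[n] X with hY
    set A : Matrix (Fin 2) (Fin 2) F := MM g ^ n with hAdef
    have hXY : (X : Matrix (Fin 2) (Fin 2) F) = r • (Y : Matrix (Fin 2) (Fin 2) F) := by
      ext i j
      rw [Matrix.smul_apply, smul_eq_mul]
      exact hr' i j
    have hYX : (Y : Matrix (Fin 2) (Fin 2) F) = r • (X : Matrix (Fin 2) (Fin 2) F) := by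
      rw [hXY, smul_smul, hr, one_smul]
    have hAX : A * (X : Matrix (Fin 2) (Fin 2) F) = r • ((X : Matrix (Fin 2) (Fin 2) F) * A) := by
      rw [← hA, hYX, smul_mul_assoc]
    have hAM : A * MM g = MM g * A := by rw [hAdef, ← pow_succ, pow_succ']
    -- `A` and the lift of the image
    have hAS : A * (S g hg X : Matrix (Fin 2) (Fin 2) F) =
        r • ((S g hg X : Matrix (Fin 2) (Fin 2) F) * A) := by
      apply hU.mul_right_cancel
      calc A * (S g hg X : Matrix (Fin 2) (Fin 2) F) * MM g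
          = A * MM g * (X : Matrix (Fin 2) (Fin 2) F) := by rw [mul_assoc, hS X, mul_assoc]
        _ = MM g * (r • ((X : Matrix (Fin 2) (Fin 2) F) * A)) := by rw [hAM, mul_assoc, hAX]
        _ = r • (MM g * (X : Matrix (Fin 2) (Fin 2) F) * A) := by
            rw [mul_smul_comm, mul_assoc]
        _ = r • ((S g hg X : Matrix (Fin 2) (Fin 2) F) * A) * MM g := by
            rw [← hS X, mul_assoc, ← hAM, smul_mul_assoc, mul_assoc]
    have hXX1 : (X : Matrix (Fin 2) (Fin 2) F) * (X₁ : Matrix (Fin 2) (Fin 2) F) =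
        (S g hg X : Matrix (Fin 2) (Fin 2) F) := by
      rw [← Matrix.SpecialLinearGroup.coe_mul, hX1, mul_inv_cancel_left]
    have hUX : IsUnit (X : Matrix (Fin 2) (Fin 2) F) :=
      (Matrix.isUnit_iff_isUnit_det _).2 (by rw [X.det_coe]; exact isUnit_one)
    have hAX1 : A * (X₁ : Matrix (Fin 2) (Fin 2) F) = (X₁ : Matrix (Fin 2) (Fin 2) F) * A := by
      apply hUX.mul_left_cancel
      have h6 : (X : Matrix (Fin 2) (Fin 2) F) * A = r • (A * (X : Matrix (Fin 2) (Fin 2) F)) := by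
        rw [hAX, smul_smul, hr, one_smul]
      calc (X : Matrix (Fin 2) (Fin 2) F) * (A * (X₁ : Matrix (Fin 2) (Fin 2) F))
          = r • (A * ((X : Matrix (Fin 2) (Fin 2) F) * (X₁ : Matrix (Fin 2) (Fin 2) F))) := by
            rw [← mul_assoc, h6, smul_mul_assoc, mul_assoc]
        _ = (S g hg X : Matrix (Fin 2) (Fin 2) F) * A := by
            rw [hXX1, hAS, smul_smul, hr, one_smul]
        _ = (X : Matrix (Fin 2) (Fin 2) F) * ((X₁ : Matrix (Fin 2) (Fin 2) F) * A) := by
            rw [← hXX1, mul_assoc]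
    obtain ⟨α, β, hαβ⟩ := pow_lin g n
    have hα : α ≠ 0 := by
      intro h0
      rw [h0, zero_smul, zero_add] at hαβ
      have hd := congrArg Matrix.det hαβ
      rw [Matrix.det_pow, det_MM, Matrix.det_smul, Matrix.det_one, Fintype.card_fin, mul_one] at hd
      obtain ⟨k, hk⟩ : ∃ k, n = 2 * k + 1 := ⟨n / 2, by omega⟩
      apply hns
      refine ⟨β / g ^ k, ?_⟩
      have hgk : g ^ k ≠ 0 := pow_ne_zero _ hg
      rw [hk, pow_succ, mul_comm 2 k, pow_mul] at hd
      field_simp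
      linear_combination hd
    have hcomm : MM g * (X₁ : Matrix (Fin 2) (Fin 2) F) =
        (X₁ : Matrix (Fin 2) (Fin 2) F) * MM g := by
      rw [hAdef, hαβ, add_mul, mul_add, smul_mul_assoc, smul_mul_assoc, mul_smul_comm,
        mul_smul_comm, one_mul, mul_one] at hAX1
      exact smul_right_injective _ hα (add_right_cancel hAX1)
    have hSX1 : S g hg X₁ = X₁ := by
      apply Subtype.ext
      apply hU.mul_right_cancel
      rw [← hcomm]
      exact hS X₁
    rw [hSX1] at hrel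
    have hSX : S g hg X = 1 := mul_eq_left.1 hrel
    have hXone : (X : Matrix (Fin 2) (Fin 2) F) = 1 := by
      have h7 := hS X
      rw [hSX, Matrix.SpecialLinearGroup.coe_one, one_mul] at h7
      apply hU.mul_left_cancel
      rw [← h7, mul_one]
    have htr : t = 2 := by
      have h8 := congrArg Matrix.trace hXone
      rw [hXm, Matrix.trace_fin_two_of, Matrix.trace_one, Fintype.card_fin] at h8
      push_cast at h8
      linear_combination h8
    apply he
    have h9 : g = 5 := by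
      rw [htr] at ht
      linear_combination -ht
    have h10 : v = 3 := by rw [hgdef] at h9; linear_combination h9
    rw [h10] at hve
    have : e * e = 0 := by linear_combination -hve
    exact mul_self_eq_zero.1 this
  -- conclusion
  have hd2 : d % 2 = 0 := by
    by_contra hcon
    apply hodd d (by omega)
    have h1 := hmul d
    rw [one_mul, zpow_natCast] at h1
    rw [← h1, mul_comm, Function.iterate_mul]
    exact Function.iterate_fixed hper 2
  obtain ⟨n, hn⟩ : ∃ n, d = 2 * n := ⟨d / 2, by omega⟩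
  have hn2 : n % 2 = 0 := by
    by_contra hcon
    apply hodd n (by omega)
    have h1 := hmul n
    rw [one_mul, zpow_natCast] at h1
    rw [← h1, ← hn]
    exact hper
  omega

end Pool.ENR
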